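import Pool.Agent.Work.MP_db9399_oc_helper27.LrgDefs

/-!
# MP_db9399, OCB4, block LRG: the mean of the test `kt` (helper89)
-/

set_option autoImplicit false

namespace Pool.Agent.Work.MP_db9399_oc_helper89

open Finset Classical
open Pool.Agent.Work.MP_db9399_all (nb)
open Pool.Agent.Work.MP_db9399_lt (us)
open Pool.Agent.Work.MP_db9399_da hiding qV
open Pool.Agent.Work.MP_db9399_xf
open Pool.Agent.Work.MP_db9399_x4
open Pool.Agent.Work.MP_db9399_oc
open Pool.Agent.Work.MP_db9399_oc_helper27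

universe u

variable {V : Type u} [Fintype V] {N J : ℕ}

/-- weight of a vertex in the double counting -/
noncomputable def rt (D : OD V N J) (b : ℕ) (w : V) : ℝ :=
  (D.ndv w b : ℝ) / (sV D.X.P (D.X.P.pc w) (D.X.P.sd w)).card

theorem rt_nonneg (D : OD V N J) (b : ℕ) (w : V) : 0 ≤ rt D b w := by
  unfold rt
  positivity

theorem wk_nonneg (D : OD V N J) (n : Fin N) (v : V) : 0 ≤ wk D n v := by
  unfold wk
  split_ifs <;> positivity

/-- double counting -/
theorem dbl (D : OD V N J) (n : Fin N) (b : ℕ) :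
    ∑ w ∈ univ.filter (fun w => InT D.X Ty.B w), rt D b w * wk D n w ≤ D.hx n b := by
  have h1 : ∀ w, rt D b w * wk D n w ≤
      ∑ v ∈ pV D.X.P n, (if D.G.Adj v w ∧ D.X.cq w ≠ D.X.cq v then rt D b w else 0) := by
    intro w
    unfold wk
    split_ifs with h
    · rw [← sum_filter, sum_const, nsmul_eq_mul, mul_comm]
      apply mul_le_mul_of_nonneg_right _ (rt_nonneg D b w)
      rw [Nat.cast_le]
      apply card_le_card
      intro y hy
      rw [mem_inter] at hy
      rw [mem_filter]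
      exact ⟨hy.2, (mem_nb.1 hy.1).symm, fun e => h y hy.2 e.symm⟩
    · rw [mul_zero]
      apply sum_nonneg
      intro v _
      split_ifs
      · exact rt_nonneg D b w
      · exact le_refl _
  unfold OD.hx
  calc ∑ w ∈ univ.filter (fun w => InT D.X Ty.B w), rt D b w * wk D n w
      ≤ ∑ w ∈ univ.filter (fun w => InT D.X Ty.B w), ∑ v ∈ pV D.X.P n,
        (if D.G.Adj v w ∧ D.X.cq w ≠ D.X.cq v then rt D b w else 0) :=
        sum_le_sum (fun w _ => h1 w)
    _ = ∑ v ∈ pV D.X.P n, ∑ w ∈ (nb D.G v).filter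
        (fun w => InT D.X Ty.B w ∧ D.X.cq w ≠ D.X.cq v),
          (D.ndv w b : ℝ) / (sV D.X.P (D.X.P.pc w) (D.X.P.sd w)).card := by
      rw [sum_comm]
      apply sum_congr rfl
      intro v _
      rw [← sum_filter, filter_filter]
      apply sum_congr
      · ext w
        simp only [mem_filter, mem_univ, true_and, mem_nb]
        tauto
      · intro w _
        rfl

theorem stmt_LRGK : Stmt_LRGK.{u} := by
  intro k hk
  refine ⟨⟨fun _ => 1, fun _ _ => 1, fun _ _ _ => 1 / 4,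
    fun _ _ _ _ => 1, fun _ _ _ _ _ => 1⟩, ⟨fun _ _ => one_pos, fun _ _ _ _ => one_pos,
    fun _ _ _ _ _ _ => by norm_num, fun _ _ _ _ _ _ _ _ => one_pos,
    fun _ _ _ _ _ _ _ _ _ _ => one_pos⟩, ?_⟩
  intro J S c' hS hc hc2
  refine ⟨⌈(101 : ℝ) ^ (4 / c')⌉₊ + 10 ^ 5, ?_⟩
  intro V _ N D hd hSD H q A b hD hb hAs hA n hn
  have hd5 : 10 ^ 5 ≤ D.d := by omega
  have hdR : (10 : ℝ) ^ 5 ≤ D.d := by exact_mod_cast hd5
  have hd0 : (0 : ℝ) < D.d := lt_of_lt_of_le (by norm_num) hdR
  have hX0 : 100 ≤ D.X0 := by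
    rw [H.X0]
    apply Nat.le_floor
    have h1 : (101 : ℝ) ^ (4 / c') ≤ D.d := by
      have h2 := Nat.le_ceil ((101 : ℝ) ^ (4 / c'))
      have h3 : (⌈(101 : ℝ) ^ (4 / c')⌉₊ : ℝ) ≤ D.d := by
        exact_mod_cast (by omega : ⌈(101 : ℝ) ^ (4 / c')⌉₊ ≤ D.d)
      exact h2.trans h3
    have h2 : ((101 : ℝ) ^ (4 / c')) ^ (c' / 4) ≤ (D.d : ℝ) ^ (c' / 4) :=
      Real.rpow_le_rpow (by positivity) h1 (by positivity)
    rw [← Real.rpow_mul (by norm_num)] at h2
    have h3 : 4 / c' * (c' / 4) = 1 := by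
      have hc0 : c' ≠ 0 := hc.ne'
      field_simp
    rw [h3, Real.rpow_one] at h2
    push_cast
    linarith
  have hSl : ∀ n, (D.sl n).ε ≤ 1 / 4 := by
    intro n
    have h1 : D.sl n = S (D.X.sc n) := by rw [← hSD]; rfl
    rw [h1]
    exact (hS _).ε.2
  have hq : ∀ n, D.X.P.ty n = Ty.B → ∀ β i, (D.d : ℝ) / 4 ≤ ((qV D.X n β i).card : ℝ) := by
    intro n hn β i
    have h1 := quarters H hn β i
    have h2 := hSl n
    nlinarith
  -- one group
  have hone : ∀ γ : Fin N × Bool × Bool, D.X.P.ty γ.1 = Ty.B → D.kc γ.1 γ.2.1 γ.2.2 b = 4 →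
      (2 * q γ.1 γ.2.1 γ.2.2 b : ℝ) * (∑ v ∈ A γ.1 γ.2.1 γ.2.2, wk D n v) /
        (A γ.1 γ.2.1 γ.2.2).card ≤
      41300 * ∑ v ∈ qV D.X γ.1 γ.2.1 γ.2.2, rt D b v * wk D n v := by
    rintro ⟨m, β, i⟩ hm hkc
    simp only at hm hkc ⊢
    have hP : b ∈ D.P m ∧ D.X0 < D.nd m β b := by
      unfold OD.kc at hkc
      split_ifs at hkc with h1 h2 h3 h4 h5
      all_goals first | (exfalso; omega) | exact ⟨by assumption, by omega⟩
    have h2q : 2 * q m β i b ≤ D.nd m β b + 1 := hD.hf m hm β i b hP.1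
    have h2qR : (2 * q m β i b : ℝ) ≤ 101 / 100 * D.nd m β b := by
      have h1 : (2 * q m β i b : ℝ) ≤ D.nd m β b + 1 := by exact_mod_cast h2q
      have h2 : (100 : ℝ) ≤ D.nd m β b := by
        exact_mod_cast (by omega : 100 ≤ D.nd m β b)
      linarith
    have hQ := hq m hm β i
    have hQ1 : (25000 : ℝ) ≤ (qV D.X m β i).card := by linarith
    have ha := hA m β i hm hkc
    have ha0 : (0 : ℝ) < (A m β i).card := by
      have : (0 : ℝ) < ((qV D.X m β i).card : ℝ) / 20000 := by positivity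
      linarith
    have hs : ((sV D.X.P m β).card : ℝ) ≤ 2 * (qV D.X m β i).card + 1 := by
      exact_mod_cast sV_le H hm β i
    have hs0 : (0 : ℝ) < (sV D.X.P m β).card := by
      have h1 : (qV D.X m β i).card ≤ (sV D.X.P m β).card := by
        apply card_le_card
        intro v hv
        rw [mem_qV] at hv
        rw [mem_sV]
        exact ⟨hv.1, hv.2.1, hv.2.2.1⟩
      have h2 : ((qV D.X m β i).card : ℝ) ≤ (sV D.X.P m β).card := by exact_mod_cast h1
      linarith
    have hn0 : (0 : ℝ) ≤ D.nd m β b := Nat.cast_nonneg _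
    have hkey : (2 * q m β i b : ℝ) * (sV D.X.P m β).card ≤
        41300 * D.nd m β b * (A m β i).card := by
      have h1 : (2 * q m β i b : ℝ) * (sV D.X.P m β).card ≤
          101 / 100 * D.nd m β b * (2 * (qV D.X m β i).card + 1) :=
        mul_le_mul h2qR hs (Nat.cast_nonneg _) (by positivity)
      have h2 : 41300 * (D.nd m β b : ℝ) * ((qV D.X m β i).card / 20000) ≤
          41300 * D.nd m β b * (A m β i).card :=
        mul_le_mul_of_nonneg_left ha (by positivity)
      nlinarith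
    have hW : ∑ v ∈ A m β i, wk D n v ≤ ∑ v ∈ qV D.X m β i, wk D n v :=
      sum_le_sum_of_subset_of_nonneg (hAs m β i) (fun v _ _ => wk_nonneg D n v)
    have hW0 : 0 ≤ ∑ v ∈ A m β i, wk D n v := sum_nonneg (fun v _ => wk_nonneg D n v)
    have hrt : ∑ v ∈ qV D.X m β i, rt D b v * wk D n v =
        (D.nd m β b : ℝ) / (sV D.X.P m β).card * ∑ v ∈ qV D.X m β i, wk D n v := by
      rw [mul_sum]
      apply sum_congr rfl
      intro v hv
      rw [mem_qV] at hv
      unfold rt OD.ndv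
      rw [hv.2.1, hv.2.2.1]
    rw [hrt, div_le_iff₀ ha0]
    have h3 : (2 * q m β i b : ℝ) ≤
        41300 * ((D.nd m β b : ℝ) / (sV D.X.P m β).card) * (A m β i).card := by
      have h4 : 41300 * ((D.nd m β b : ℝ) / (sV D.X.P m β).card) * (A m β i).card =
          41300 * D.nd m β b * (A m β i).card / (sV D.X.P m β).card := by ring
      rw [h4, le_div_iff₀ hs0]
      exact hkey
    calc (2 * q m β i b : ℝ) * ∑ v ∈ A m β i, wk D n v
        ≤ (41300 * ((D.nd m β b : ℝ) / (sV D.X.P m β).card) * (A m β i).card) *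
          ∑ v ∈ qV D.X m β i, wk D n v :=
          mul_le_mul h3 hW hW0 (by positivity)
      _ = _ := by ring
  calc _ ≤ ∑ γ ∈ univ.filter (fun γ : Fin N × Bool × Bool => D.X.P.ty γ.1 = Ty.B ∧
        D.kc γ.1 γ.2.1 γ.2.2 b = 4),
          41300 * ∑ v ∈ qV D.X γ.1 γ.2.1 γ.2.2, rt D b v * wk D n v := by
        apply sum_le_sum
        intro γ hγ
        rw [mem_filter] at hγ
        exact hone γ hγ.2.1 hγ.2.2
    _ = 41300 * ∑ v ∈ (univ.filter (fun γ : Fin N × Bool × Bool => D.X.P.ty γ.1 = Ty.B ∧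
        D.kc γ.1 γ.2.1 γ.2.2 b = 4)).biUnion (fun γ => qV D.X γ.1 γ.2.1 γ.2.2),
          rt D b v * wk D n v := by
        rw [← mul_sum, sum_biUnion]
        rintro ⟨m, β, i⟩ _ ⟨m', β', i'⟩ _ hne
        simp only [Function.onFun]
        rw [disjoint_left]
        intro v hv hv'
        rw [mem_qV] at hv hv'
        apply hne
        rw [Prod.mk.injEq, Prod.mk.injEq]
        exact ⟨hv.2.1.symm.trans hv'.2.1, hv.2.2.1.symm.trans hv'.2.2.1,
          hv.2.2.2.symm.trans hv'.2.2.2⟩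
    _ ≤ 41300 * ∑ w ∈ univ.filter (fun w => InT D.X Ty.B w), rt D b w * wk D n w := by
        apply mul_le_mul_of_nonneg_left _ (by norm_num)
        apply sum_le_sum_of_subset_of_nonneg
        · intro v hv
          rw [mem_biUnion] at hv
          obtain ⟨γ, hγ, hv⟩ := hv
          rw [mem_filter] at hγ
          rw [mem_qV] at hv
          rw [mem_filter]
          refine ⟨mem_univ _, hv.1, ?_⟩
          rw [hv.2.1]
          exact hγ.2.1
        · intro w _ _
          exact mul_nonneg (rt_nonneg D b w) (wk_nonneg D n w)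
    _ ≤ 41300 * D.hx n b := by
        apply mul_le_mul_of_nonneg_left (dbl D n b) (by norm_num)

end Pool.Agent.Work.MP_db9399_oc_helper89
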